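import Mathlib

set_option autoImplicit false

/-!
Project XL (helper85): for every negative time a positive proportion of the zeros of the deformed Xi function is not real
(MP_023270_nt, full negative answer). Statements.
-/

namespace Pool.Agent.U85.XL

open MeasureTheory Filter Topology Complex

noncomputable section

/-- the kernel of the Riemann Xi function -/
def Phi (t : ℝ) : ℝ := 2 * ∑' n : ℕ, (2 * Real.pi ^ 2 * ((n : ℝ) + 1) ^ 4 * Real.exp (9 * t / 2) -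
  3 * Real.pi * ((n : ℝ) + 1) ^ 2 * Real.exp (5 * t / 2)) * Real.exp (-(Real.pi * ((n : ℝ) + 1) ^ 2 * Real.exp (2 * t)))

/-- the deformed Xi function -/
def Xi (lam : ℝ) (z : ℂ) : ℂ := ∫ t : ℝ, ((Phi t * Real.exp (lam * t ^ 2) : ℝ) : ℂ) * cexp (I * z * t)

/-- the Riemann xi function `s (s - 1) / 2 * pi ^ (-s/2) * Gamma (s/2) * zeta s` in its entire form -/
def xi (s : ℂ) : ℂ := (s * (s - 1) * completedRiemannZeta₀ s + 1) / 2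

/-- the factor of the xi function in front of zeta -/
def gg (v : ℂ) : ℂ := v * (v - 1) / 2 * Gammaℝ v

/-- the kernel: integrable against exponentials, positive, and its Fourier transform -/
def S_X0 : Prop := (∀ c : ℝ, Integrable (fun t : ℝ => |Phi t| * Real.exp (c * |t|))) ∧ (∀ t : ℝ, 0 < Phi t) ∧
  ∀ z : ℂ, Xi 0 z = xi (1 / 2 + I * z)

/-- the deformed functions are entire -/
def S_ENT : Prop := ∀ lam : ℝ, lam ≤ 0 → Differentiable ℂ (Xi lam)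

/-- representation by a Gaussian mean on an arbitrary vertical line -/
def S_REP : Prop := ∀ κ : ℝ, 0 < κ → ∀ x y a : ℝ, Xi (-κ) (x - I * y) =
  ((Real.exp (a ^ 2 / (4 * κ)) / Real.sqrt (4 * Real.pi * κ) : ℝ) : ℂ) *
    ∫ u : ℝ, xi (1 / 2 + (y - a) + I * (x + u)) * cexp (-(u : ℂ) ^ 2 / (4 * κ) - I * u * a / (2 * κ))

/-- logarithmic derivative of the factor in front of zeta -/
def S_DIG : Prop := ∃ C : ℝ, 1 ≤ C ∧ ∀ v : ℂ, 1 ≤ v.re → 1 ≤ v.im → gg v ≠ 0 ∧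
  ‖deriv gg v / gg v - Complex.log (v / (2 * Real.pi)) / 2‖ ≤ C / ‖v‖

/-- crude growth -/
def S_CR : Prop := ∃ C : ℝ, 1 ≤ C ∧ ∀ v : ℂ, 1 ≤ v.re → ‖xi v‖ ≤ Real.exp (C * (1 + ‖v‖) * Real.log (2 + ‖v‖))

/-- integrated form of the logarithmic derivative -/
def S_GR : Prop := ∀ B : ℝ, 1 ≤ B → ∃ C x₀ : ℝ, 1 ≤ C ∧ 3 ≤ x₀ ∧ ∀ x : ℝ, x₀ ≤ x → ∀ c c' : ℝ, 1 ≤ c → c ≤ B * Real.log x →
  1 ≤ c' → c' ≤ B * Real.log x →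
  (∀ u : ℝ, |u| ≤ x / 2 → gg (c' + I * (x + u)) ≠ 0 ∧
    ‖gg (c' + I * (x + u))‖ ≤ ‖gg (c + I * x)‖ * Real.exp ((c' - c) / 2 * Real.log x + |u| + C * Real.log x) ∧
    ‖gg (c + I * x)‖ * Real.exp ((c' - c) / 2 * Real.log x - |u| - C * Real.log x) ≤ ‖gg (c' + I * (x + u))‖) ∧
  ∀ u : ℝ, |u| ≤ x ^ (1 / 4 : ℝ) →
    ‖gg (c + I * (x + u)) - gg (c + I * x) * cexp (I * u * (Real.log (x / (2 * Real.pi)) / 2 + I * Real.pi / 4))‖ ≤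
      ‖gg (c + I * x)‖ * (C * Real.exp |u| * (1 + u ^ 2) * Real.log x / x)

/-- the size in the region where the first term dominates -/
def S_FREE : Prop := ∀ κ η B : ℝ, 0 < κ → 0 < η → 2 ≤ B → ∃ C X₀ : ℝ, 1 ≤ C ∧ 3 ≤ X₀ ∧ ∀ X : ℝ, X₀ ≤ X →
  ∀ x : ℝ, X / 2 ≤ x → x ≤ 2 * X → ∀ y : ℝ, (1 + η) * κ * Real.log X ≤ y → y ≤ B * κ * Real.log X →
    ‖gg (3 / 2 + I * x)‖ * Real.exp (y * Real.log X / 2 - κ * Real.log X ^ 2 / 4 - C * Real.log X) ≤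
      ‖Xi (-κ) (x - I * y)‖ ∧
    ‖Xi (-κ) (x - I * y)‖ ≤
      ‖gg (3 / 2 + I * x)‖ * Real.exp (y * Real.log X / 2 - κ * Real.log X ^ 2 / 4 + C * Real.log X)

/-- upper bound everywhere -/
def S_UP : Prop := ∀ κ B : ℝ, 0 < κ → 1 ≤ B → ∃ C X₀ : ℝ, 1 ≤ C ∧ 3 ≤ X₀ ∧ ∀ X : ℝ, X₀ ≤ X →
  ∀ x : ℝ, X / 2 ≤ x → x ≤ 2 * X → ∀ y : ℝ, |y| ≤ B * κ * Real.log X →
    ‖Xi (-κ) (x - I * y)‖ ≤ ‖gg (3 / 2 + I * x)‖ * Real.exp (C * Real.log X ^ 2)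

/-- the Gaussian Dirichlet series -/
def V (κ μ x : ℝ) : ℂ := ∑' n : ℕ, ((((n : ℝ) + 1) ^ (-(3 / 2) : ℝ) * Real.exp (-(κ * (μ - Real.log ((n : ℝ) + 1)) ^ 2)) : ℝ) : ℂ) *
  cexp (-(I * x * Real.log ((n : ℝ) + 1)))

/-- approximation by the Gaussian Dirichlet series on the line `y = (49/50) κ log X` -/
def S_APP : Prop := ∀ κ : ℝ, 0 < κ → ∃ X₀ : ℝ, 3 ≤ X₀ ∧ ∀ X : ℝ, X₀ ≤ X → ∀ x : ℝ, X ≤ x → x ≤ X + Real.sqrt X →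
  Real.exp ((49 / 50 * κ * Real.log X - 1) ^ 2 / (4 * κ)) * ‖gg (3 / 2 + I * x)‖ *
    (‖V κ (Real.log X / 100 + (1 / (2 * κ) - Real.log (2 * Real.pi) / 2)) (x - κ * Real.pi / 2)‖ - X ^ (-(1 / 3) : ℝ)) ≤
    ‖Xi (-κ) (x - I * ((49 / 50 * κ * Real.log X : ℝ) : ℂ))‖

/-- local mean square -/
def FL (κ μ R x : ℝ) : ℝ := ∫ u in (-R)..R, (1 - |u| / R) / R * ‖V κ μ (x + u)‖ ^ 2

/-- mean of the local mean square -/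
def S_MA : Prop := ∀ κ b : ℝ, 0 < κ → ∃ c X₀ : ℝ, 0 < c ∧ 3 ≤ X₀ ∧ ∀ X : ℝ, X₀ ≤ X →
  c * Real.sqrt X * Real.exp (-(2 * (Real.log X / 100 + b))) ≤
    ∫ x in (X + Real.sqrt X / 4)..(X + Real.sqrt X / 2), FL κ (Real.log X / 100 + b) (Real.log X) x

/-- second moment of the local mean square -/
def S_MB : Prop := ∀ κ b : ℝ, 0 < κ → ∃ C X₀ : ℝ, 0 < C ∧ 3 ≤ X₀ ∧ ∀ X : ℝ, X₀ ≤ X →
  ∫ x in (X + Real.sqrt X / 4)..(X + Real.sqrt X / 2), FL κ (Real.log X / 100 + b) (Real.log X) x ^ 2 ≤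
    C * Real.sqrt X * Real.exp (-(4 * (Real.log X / 100 + b)))

/-- many points where the Dirichlet series is not small -/
def S_MC : Prop := ∀ κ b Q : ℝ, 0 < κ → 1 ≤ Q → ∃ ρ X₀ : ℝ, 0 < ρ ∧ 3 ≤ X₀ ∧ ∀ X : ℝ, X₀ ≤ X → ∃ P : Finset ℝ,
  (∀ x ∈ P, X + Real.sqrt X / 8 ≤ x ∧ x ≤ X + 3 * Real.sqrt X / 4) ∧
  (∀ x ∈ P, ∀ x' ∈ P, x ≠ x' → Q * Real.log X ≤ |x - x'|) ∧ ρ * Real.sqrt X ≤ P.card * Real.log X ∧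
  ∀ x ∈ P, 2 * X ^ (-(1 / 4) : ℝ) ≤ ‖V κ (Real.log X / 100 + b) x‖

/-- potential theory: a large value at `z₁` next to a region where the function has modulus close to one forces many zeros -/
def S_POT : Prop := ∀ K c q η : ℝ, 0 < K → 0 < c → 0 < q → q < 1 → 0 < η → η < 1 → ∃ ε d : ℝ, 0 < ε ∧ 0 < d ∧
  ∀ (F : ℂ → ℂ) (c₀ z₁ : ℂ) (R M : ℝ), Differentiable ℂ F → 0 < R → 1 ≤ M → ‖z₁ - c₀‖ ≤ q * R →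
    (∀ z : ℂ, ‖z - c₀‖ ≤ R → ‖F z‖ ≤ Real.exp (K * M)) →
    (∀ z : ℂ, ‖z - c₀‖ ≤ η * R → Real.exp (-(ε * M)) ≤ ‖F z‖ ∧ ‖F z‖ ≤ Real.exp (ε * M)) →
    Real.exp (c * M) ≤ ‖F z₁‖ →
    ∃ Z : Finset ℂ, (∀ z ∈ Z, F z = 0 ∧ ‖z - c₀‖ ≤ R) ∧ d * M ≤ ∑ z ∈ Z, (analyticOrderNatAt F z : ℝ)

/-- number of zeros in a disc -/
def S_JEN : Prop := ∀ κ : ℝ, 0 < κ → ∃ C T₀ : ℝ, 1 ≤ C ∧ 3 ≤ T₀ ∧ ∀ T : ℝ, T₀ ≤ T → ∀ Z : Finset ℂ,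
  (∀ z ∈ Z, Xi (-κ) z = 0 ∧ ‖z‖ ≤ T) → ∑ z ∈ Z, (analyticOrderNatAt (Xi (-κ)) z : ℝ) ≤ C * T * Real.log T

/-- many non-real zeros with real part in a short interval -/
def S_LOC : Prop := ∀ κ : ℝ, 0 < κ → ∃ c X₀ : ℝ, 0 < c ∧ 3 ≤ X₀ ∧ ∀ X : ℝ, X₀ ≤ X → ∃ Z : Finset ℂ,
  (∀ z ∈ Z, Xi (-κ) z = 0 ∧ z.im < 0 ∧ X ≤ z.re ∧ z.re ≤ X + Real.sqrt X) ∧
  c * Real.sqrt X * Real.log X ≤ ∑ z ∈ Z, (analyticOrderNatAt (Xi (-κ)) z : ℝ)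

/-- many non-real zeros -/
def S_NR : Prop := ∀ κ : ℝ, 0 < κ → ∃ c T₀ : ℝ, 0 < c ∧ 3 ≤ T₀ ∧ ∀ T : ℝ, T₀ ≤ T → ∃ Z : Finset ℂ,
  (∀ z ∈ Z, Xi (-κ) z = 0 ∧ z.im ≠ 0 ∧ |z.re| ≤ T) ∧
  c * T * Real.log T ≤ ∑ z ∈ Z, (analyticOrderNatAt (Xi (-κ)) z : ℝ)

end

end Pool.Agent.U85.XL
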